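import Pool.Agent.W170.MV.Final

set_option autoImplicit false

/-!
# Montgomery's conjecture for the points in few, or in rich, intervals of length `H ≥ √T`

Let `S ⊂ [0,T]` be `1`-separated, `√T ≤ H ≤ N`, and let `c` be the number of the intervals
`[kH,(k+1)H)` which meet `S`. Then `∑_{t ∈ S} |D(t)|² ≤ C (1 + log N)³ N (N + c √(NH))`. So the
inequality of Q1 holds if `S` meets at most `√(N/H)` of these intervals. Moreover the points `t` with
`|D(t)| ≥ V` lying in intervals which contain at least `C (1 + log N)³ N √(NH)/V²` such points obey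
Montgomery's bound: their number is at most `C (1 + log N)³ N²/V²`.
-/

namespace Pool.Agent.Results.MP_71ac24_nt.ClusteredSets

open Finset

/-- `D(t) = ∑_{n ≤ N} a_n n^{it}` -/
noncomputable def D (N : ℕ) (a : ℕ → ℂ) (t : ℝ) : ℂ :=
  ∑ n ∈ Icc 1 N, a n * Complex.exp (Complex.I * (t : ℂ) * (Real.log (n : ℝ) : ℂ))

/-- `N ≥ 1`, `T ≤ N²`, `|a_n| ≤ 1` for all `n`, and `S ⊂ [0,T]` is `1`-separated -/
def Admissible (N : ℕ) (T : ℝ) (a : ℕ → ℂ) (S : Finset ℝ) : Prop :=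
  1 ≤ N ∧ T ≤ (N : ℝ) ^ 2 ∧ (∀ n, ‖a n‖ ≤ 1) ∧ (∀ t ∈ S, 0 ≤ t ∧ t ≤ T) ∧
    ∀ t ∈ S, ∀ u ∈ S, t ≠ u → 1 ≤ |t - u|

/-- the number of the intervals `[kH,(k+1)H)`, `k = 0, 1, 2, …`, which meet `S` -/
noncomputable def cells (H : ℝ) (S : Finset ℝ) : ℕ := (S.image (fun t => ⌊t / H⌋₊)).card

/-- the number of the points of `S` in the interval `[kH,(k+1)H)` which contains `t` -/
noncomputable def inCell (H : ℝ) (S : Finset ℝ) (t : ℝ) : ℕ :=
  (S.filter (fun u => ⌊u / H⌋₊ = ⌊t / H⌋₊)).card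

/-- **Clustered sets.** There is `C` such that for all admissible `N, T, a, S` and all `H` with
`1 ≤ H ≤ N`, `T ≤ H²`:
(1) `∑_{t ∈ S} |D(t)|² ≤ C (1 + log N)³ N (N + c √(NH))` for the number `c` of the intervals
`[kH,(k+1)H)` which meet `S`;
(2) if `c √(NH) ≤ N + |S|`, e.g. if `c ≤ √(N/H)`, then
`∑_{t ∈ S} |D(t)|² ≤ 2 C (1 + log N)³ (N + |S|) N`;
(3) if `|D(t)| ≥ V > 0` on `S` and `r V² ≥ C (1 + log N)³ N √(NH)`, then the number of the `t ∈ S`
whose interval contains at least `r` points of `S` is at most `C (1 + log N)³ N² / V²`. -/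
theorem result : ∃ C : ℝ, 0 < C ∧ ∀ (N : ℕ) (T H : ℝ) (a : ℕ → ℂ) (S : Finset ℝ),
    Admissible N T a S → 1 ≤ H → H ≤ N → T ≤ H ^ 2 →
    (∑ t ∈ S, ‖D N a t‖ ^ 2 ≤
      C * (1 + Real.log N) ^ 3 * N * (N + cells H S * Real.sqrt (N * H))) ∧
    (cells H S * Real.sqrt (N * H) ≤ N + S.card →
      ∑ t ∈ S, ‖D N a t‖ ^ 2 ≤ 2 * C * (1 + Real.log N) ^ 3 * (N + S.card) * N) ∧
    (cells H S ≤ Real.sqrt (N / H) →
      ∑ t ∈ S, ‖D N a t‖ ^ 2 ≤ 2 * C * (1 + Real.log N) ^ 3 * (N + S.card) * N) ∧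
    (∀ (V : ℝ) (r : ℕ), 0 < V → (∀ t ∈ S, V ≤ ‖D N a t‖) →
      C * (1 + Real.log N) ^ 3 * N * Real.sqrt (N * H) ≤ r * V ^ 2 →
      ((S.filter (fun t => r ≤ inCell H S t)).card : ℝ) ≤
        C * (1 + Real.log N) ^ 3 * N ^ 2 / V ^ 2) := by
  have hC := Pool.Agent.W170.MV.C1_pos
  refine ⟨336 * Pool.Agent.W170.MV.C1, by positivity, ?_⟩
  intro N T H a S hA hH hHN hTH
  obtain ⟨hN, -, ha, hS, hsep⟩ := hA
  have hN1 : (1:ℝ) ≤ N := by exact_mod_cast hN
  have hN0 : (0:ℝ) < N := by linarith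
  have hH0 : (0:ℝ) < H := by linarith
  have hl : 0 ≤ Real.log N := Real.log_nonneg hN1
  set L := Real.log N with hL
  set K : ℝ := 84 * Pool.Agent.W170.MV.C1 * (1 + L) ^ 3 * N with hK
  have hK0 : 0 ≤ K := by positivity
  have hHsq : H ≤ Real.sqrt (N * H) := by
    apply Real.le_sqrt_of_sq_le
    nlinarith
  have hsq0 : 0 ≤ Real.sqrt (N * H) := Real.sqrt_nonneg _
  have e : ∀ t : ℝ, D N a t =
      ∑ n ∈ Icc 1 N, a n * Complex.exp (Complex.I * (t * Real.log n : ℝ)) := by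
    intro t
    unfold D
    apply sum_congr rfl
    intro n _
    push_cast
    ring_nf
  have base : ∀ S' ⊆ S, ∑ t ∈ S', ‖D N a t‖ ^ 2 ≤
      K * N + cells H S' * (2 * K * Real.sqrt (N * H)) := by
    intro S' hS'
    have h := Pool.Agent.W170.MV.clustered_pos hH N hN a ha S'
      (fun t ht => ⟨(hS t (hS' ht)).1, (hS t (hS' ht)).2.trans hTH⟩)
      (fun t ht u hu => hsep t (hS' ht) u (hS' hu))
    simp only [← e] at h
    refine h.trans ?_
    have h2 : (Pool.Agent.W170.MV.cells H S' : ℝ) = cells H S' := rfl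
    rw [h2, ← hL, ← hK]
    have h3 : (0:ℝ) ≤ cells H S' := Nat.cast_nonneg _
    have h4 : (cells H S' : ℝ) * (H + Real.sqrt (N * H)) ≤ cells H S' * (2 * Real.sqrt (N * H)) := by
      gcongr
      linarith
    calc K * (N + cells H S' * (H + Real.sqrt (N * H)))
        ≤ K * (N + cells H S' * (2 * Real.sqrt (N * H))) := by gcongr
      _ = _ := by ring
  have p1 : ∑ t ∈ S, ‖D N a t‖ ^ 2 ≤
      336 * Pool.Agent.W170.MV.C1 * (1 + L) ^ 3 * N * (N + cells H S * Real.sqrt (N * H)) := by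
    refine (base S subset_rfl).trans ?_
    have h3 : (0:ℝ) ≤ cells H S * Real.sqrt (N * H) := by positivity
    have : 336 * Pool.Agent.W170.MV.C1 * (1 + L) ^ 3 * N = 4 * K := by rw [hK]; ring
    rw [this]
    nlinarith [mul_nonneg hK0 h3, mul_nonneg hK0 hN0.le]
  have p2 : cells H S * Real.sqrt (N * H) ≤ N + S.card →
      ∑ t ∈ S, ‖D N a t‖ ^ 2 ≤
        2 * (336 * Pool.Agent.W170.MV.C1) * (1 + L) ^ 3 * (N + S.card) * N := by
    intro h
    refine p1.trans ?_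
    have h0 : (0:ℝ) ≤ S.card := Nat.cast_nonneg _
    have h1 : (N:ℝ) + cells H S * Real.sqrt (N * H) ≤ 2 * (N + S.card) := by linarith
    calc 336 * Pool.Agent.W170.MV.C1 * (1 + L) ^ 3 * N * (N + cells H S * Real.sqrt (N * H))
        ≤ 336 * Pool.Agent.W170.MV.C1 * (1 + L) ^ 3 * N * (2 * (N + S.card)) := by gcongr
      _ = _ := by ring
  refine ⟨p1, p2, ?_, ?_⟩
  · intro h
    apply p2
    have h0 : (0:ℝ) ≤ S.card := Nat.cast_nonneg _
    calc cells H S * Real.sqrt (N * H) ≤ Real.sqrt (N / H) * Real.sqrt (N * H) := by gcongr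
      _ = N := by
          rw [← Real.sqrt_mul (by positivity)]
          rw [show (N:ℝ) / H * (N * H) = N ^ 2 by field_simp]
          exact Real.sqrt_sq hN0.le
      _ ≤ N + S.card := by linarith
  · intro V r hV hSV hr
    have h := Pool.Agent.W170.MV.rich_points (H := H) (M := 2 * K * Real.sqrt (N * H))
      (K := K * N) hV S (fun t => ‖D N a t‖) hSV r base (by
        refine le_trans (le_of_eq ?_) hr
        rw [hK]; ring)
    have h2 : ((S.filter (fun t => r ≤ inCell H S t)).card : ℝ) ≤ 2 * (K * N) / V ^ 2 := h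
    refine h2.trans ?_
    have hV2 : 0 < V ^ 2 := by positivity
    apply div_le_div_of_nonneg_right _ hV2.le
    rw [hK]
    have : 0 ≤ Pool.Agent.W170.MV.C1 * (1 + L) ^ 3 * N ^ 2 := by positivity
    nlinarith

end Pool.Agent.Results.MP_71ac24_nt.ClusteredSets
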