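import Pool.Agent.TH705.DL.TransM

set_option autoImplicit false

/-!
# Montgomery's conjecture after independent translations of the pieces of an arbitrary set

`S ⊂ [0,T]`, `T ≤ N²`, is an arbitrary `1`-separated set, cut into its pieces in the intervals
`[jN, (j+1)N)`. Each piece is translated by its own amount `u_j ∈ [0,N]`. For all but a proportion
`N^(-A)` of the vectors `u ∈ [0,N]^J` the inequality of Q1 holds for the translated set, with
`C_A (1 + log N)^4` in place of `C N^ε`, for ALL coefficients bounded by `1` at once.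

The proof is the matrix Chernoff bound of Ahlswede and Winter for the sum of the independent
operators of the pieces (`Pool/Agent/TH705/DL`), each of which is bounded by the mean value theorem
for one interval of length `N`.
-/

namespace Pool.Agent.Results.MP_71ac24_nt.IndependentTranslations

open Finset MeasureTheory Pool.Agent.TH705.DL Pool.Agent.TH705.AW

/-- `D(t) = ∑_{n ≤ N} a_n n^{it}` -/
noncomputable def D (N : ℕ) (a : ℕ → ℂ) (t : ℝ) : ℂ :=
  ∑ n ∈ Icc 1 N, a n * Complex.exp (Complex.I * (t : ℂ) * (Real.log (n : ℝ) : ℂ))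

/-- the numerical constants -/
theorem const_le {N : ℕ} (hN : 1 ≤ N) :
    (2 + Real.log (N : ℝ) ^ 2) * ((N : ℝ) + 1 + 4 * (N : ℝ) * (1 + Real.log (N : ℝ))) ≤
      12 * (1 + Real.log N) ^ 3 * N := by
  have hN1 : (1:ℝ) ≤ N := by exact_mod_cast hN
  have hl : 0 ≤ Real.log N := Real.log_nonneg hN1
  set ℓ := Real.log N with hℓ
  have h4 : 2 + ℓ ^ 2 ≤ 2 * (1 + ℓ) ^ 2 := by nlinarith
  have h5 : (N : ℝ) + 1 + 4 * N * (1 + ℓ) ≤ 6 * N * (1 + ℓ) := by nlinarith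
  calc (2 + ℓ ^ 2) * ((N : ℝ) + 1 + 4 * N * (1 + ℓ))
      ≤ (2 * (1 + ℓ) ^ 2) * (6 * N * (1 + ℓ)) := by
        apply mul_le_mul h4 h5 (by positivity) (by positivity)
    _ = 12 * (1 + ℓ) ^ 3 * N := by ring

/-- the vector of a coefficient sequence -/
noncomputable def va (N : ℕ) (a : ℕ → ℂ) : VV N := WithLp.toLp 2 (fun n : Icc 1 N => a n)

theorem ext0_va (N : ℕ) (a : ℕ → ℂ) (n : ℕ) (hn : n ∈ Icc 1 N) : ext0 (va N a) n = a n := by
  unfold ext0
  rw [dif_pos hn]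
  rfl

theorem DP_va (N : ℕ) (a : ℕ → ℂ) (t : ℝ) : DP N (ext0 (va N a)) t = D N a t := by
  unfold DP D
  apply sum_congr rfl
  intro n hn
  rw [ext0_va N a n hn]
  rfl

theorem norm_va (N : ℕ) (a : ℕ → ℂ) : ‖va N a‖ ^ 2 = ∑ n ∈ Icc 1 N, ‖a n‖ ^ 2 := by
  rw [← norm_ext0]
  apply sum_congr rfl
  intro n hn
  rw [ext0_va N a n hn]

/-- the general inequality -/
theorem main {ι : Type} [Fintype ι] (N : ℕ) (hN : 1 ≤ N) (P : ι → Finset ℝ)
    (hP : ∀ j, ∀ t ∈ P j, ∀ u ∈ P j, t ≠ u → 1 ≤ |t - u|)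
    (hx : ∀ j, ∃ x : ℝ, ∀ t ∈ P j, x ≤ t ∧ t ≤ x + N)
    (h δ : ℝ) (hh : 0 < h) (hδ : 0 < δ) :
    ∃ E : Set (ι → ℝ), MeasurableSet E ∧
      volume E ≤ ENNReal.ofReal (δ * h ^ Fintype.card ι) ∧
      ∀ u : ι → ℝ, (∀ j, u j ∈ Set.Icc 0 h) → u ∉ E → ∀ a : ℕ → ℂ,
        ∑ j, ∑ t ∈ P j, ‖D N a (t + u j)‖ ^ 2 ≤
          12 * (1 + Real.log N) ^ 3 *
            ((∑ j, ((P j).card : ℝ)) * (1 + N / h) + N * Real.log (N / δ)) *
            ∑ n ∈ Icc 1 N, ‖a n‖ ^ 2 := by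
  classical
  have hN1 : (1:ℝ) ≤ N := by exact_mod_cast hN
  have hN0 : (0:ℝ) < N := by linarith
  have hl : 0 ≤ Real.log N := Real.log_nonneg hN1
  set ℓ := Real.log N with hℓ
  set B : ℝ := 12 * (1 + ℓ) ^ 3 * N with hB
  have hB0 : 0 < B := by positivity
  have he0 : 0 ≤ Real.exp 1 - 1 := by
    have := Real.add_one_le_exp 1
    linarith
  have he : Real.exp 1 - 1 ≤ 2 := by
    have := Real.exp_one_lt_d9
    linarith
  set κ : ι → ℝ := fun j => (P j).card / B * (1 + 4 * (N : ℝ) * (1 + Real.log (N : ℝ)) / h) with hκ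
  have hκ0 : ∀ j, 0 ≤ κ j := fun j => by rw [hκ]; positivity
  have hfam : ∀ j, Fam h (κ j) (YY N B (P j)) := fun j =>
    YY_fam hN hB0 hh hN0.le (P j) (hP j) (hx j) (const_le hN)
  set s : ℝ := (Real.exp 1 - 1) * ∑ j, κ j + Real.log (N / δ) with hs
  have htail := tail hh.le κ hκ0 (fun j => YY N B (P j)) hfam s
  set E₀ : Set (ι → ℝ) := {x : ι → ℝ | (∀ i, x i ∈ Set.Icc 0 h) ∧ ∃ v : VV N, ‖v‖ = 1 ∧
        s ≤ ∑ i, qf (YY N B (P i) (x i) : Module.End ℂ (VV N)) v} with hE₀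
  refine ⟨toMeasurable volume E₀, measurableSet_toMeasurable _ _, ?_, ?_⟩
  · rw [measure_toMeasurable]
    refine htail.trans (le_of_eq ?_)
    congr 1
    have hfr : (Module.finrank ℂ (VV N) : ℝ) = N := by
      rw [finrank_euclideanSpace, Fintype.card_coe, Nat.card_Icc]
      push_cast
      simp
    have hq : (0:ℝ) < N / δ := by positivity
    rw [hfr, hs, neg_add, Real.exp_add, Real.exp_neg (Real.log (N / δ)), Real.exp_log hq,
      Real.exp_neg]
    have := Real.exp_pos ((Real.exp 1 - 1) * ∑ j, κ j)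
    field_simp
  · intro u hu huE a
    have huE₀ : u ∉ E₀ := fun hc => huE (subset_toMeasurable _ _ hc)
    have hall : ∀ v : VV N, ‖v‖ = 1 →
        ∑ i, qf (YY N B (P i) (u i) : Module.End ℂ (VV N)) v ≤ s := by
      intro v hv
      by_contra hc
      exact huE₀ ⟨hu, v, hv, (not_le.1 hc).le⟩
    have hall' : ∀ v : VV N,
        ∑ i, qf (YY N B (P i) (u i) : Module.End ℂ (VV N)) v ≤ s * ‖v‖ ^ 2 := by
      intro v
      by_cases hv : v = 0
      · subst hv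
        simp [qf]
      · have hv0 : ‖v‖ ≠ 0 := norm_ne_zero_iff.2 hv
        have hv1 : ‖((‖v‖⁻¹ : ℝ) : ℂ) • v‖ = 1 := by
          rw [norm_smul, Complex.norm_real, norm_inv, norm_norm, inv_mul_cancel₀ hv0]
        have h1 := hall _ hv1
        simp only [qf_smul] at h1
        rw [← Finset.mul_sum, Complex.norm_real, norm_inv, norm_norm, inv_pow,
          inv_mul_le_iff₀ (by positivity)] at h1
        linarith
    have h1 := hall' (va N a)
    simp only [YY_qf] at h1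
    rw [← Finset.mul_sum, inv_mul_le_iff₀ hB0, norm_va] at h1
    simp only [DP_va] at h1
    refine h1.trans ?_
    rw [← mul_assoc]
    apply mul_le_mul_of_nonneg_right _ (sum_nonneg fun _ _ => by positivity)
    set R : ℝ := ∑ j, ((P j).card : ℝ) with hR
    have hR0 : 0 ≤ R := sum_nonneg fun _ _ => by positivity
    have h2 : ∑ j, κ j = R / B * (1 + 4 * (N : ℝ) * (1 + Real.log (N : ℝ)) / h) := by
      rw [hκ, ← Finset.sum_mul, ← Finset.sum_div]
    have h4 : 1 + 4 * (N : ℝ) * (1 + Real.log (N : ℝ)) / h ≤ 6 * (1 + ℓ) ^ 3 * (1 + N / h) := by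
      have h5 : 4 * (N : ℝ) * (1 + Real.log (N : ℝ)) / h = 4 * (1 + ℓ) * (N / h) := by
        rw [hℓ]; field_simp
      rw [h5]
      have h6 : (1:ℝ) ≤ (1 + ℓ) ^ 2 := one_le_pow₀ (by linarith)
      have h7 : 1 + ℓ ≤ (1 + ℓ) ^ 3 := by nlinarith
      have h8 : (0:ℝ) ≤ N / h := by positivity
      nlinarith [mul_le_mul_of_nonneg_right h7 h8]
    have h9 : B * ((Real.exp 1 - 1) * ∑ j, κ j) ≤ 12 * (1 + ℓ) ^ 3 * (R * (1 + N / h)) := by
      rw [h2]
      have e : B * ((Real.exp 1 - 1) * (R / B *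
        (1 + 4 * (N : ℝ) * (1 + Real.log (N : ℝ)) / h))) =
        R * ((Real.exp 1 - 1) * (1 + 4 * (N : ℝ) * (1 + Real.log (N : ℝ)) / h)) := by
        field_simp
      rw [e]
      have e2 : 12 * (1 + ℓ) ^ 3 * (R * (1 + N / h)) =
        R * (2 * (6 * (1 + ℓ) ^ 3 * (1 + N / h))) := by ring
      rw [e2]
      apply mul_le_mul_of_nonneg_left _ hR0
      exact mul_le_mul he h4 (by positivity) (by norm_num)
    calc B * s = B * ((Real.exp 1 - 1) * ∑ j, κ j) + B * Real.log (N / δ) := by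
          rw [hs]; ring
      _ ≤ 12 * (1 + ℓ) ^ 3 * (R * (1 + N / h)) + B * Real.log (N / δ) := by linarith
      _ = 12 * (1 + ℓ) ^ 3 * (R * (1 + N / h) + N * Real.log (N / δ)) := by
          rw [hB]; ring

theorem num_le {N ℓ A R c G : ℝ} (hN : 0 ≤ N) (hl : 0 ≤ ℓ) (hA : 0 ≤ A) (hR : 0 ≤ R) (hRc : R ≤ c)
    (hG : 0 ≤ G) (hGN : G ≤ N) :
    12 * (1 + ℓ) ^ 3 * (R * (1 + 1) + N * ((1 + A) * ℓ)) * G ≤
      12 * (A + 2) * (1 + ℓ) ^ 4 * (N + c) * N := by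
  have hc : 0 ≤ c := hR.trans hRc
  have h1 : R * (1 + 1) + N * ((1 + A) * ℓ) ≤ (A + 2) * (1 + ℓ) * (N + c) := by
    have e0 : (2:ℝ) ≤ (A + 2) * (1 + ℓ) := by nlinarith
    have e1 : R * (1 + 1) ≤ (A + 2) * (1 + ℓ) * c := by
      calc R * (1 + 1) ≤ 2 * c := by linarith
        _ ≤ _ := mul_le_mul_of_nonneg_right e0 hc
    have e3 : (1 + A) * ℓ ≤ (A + 2) * (1 + ℓ) := by nlinarith
    have e2 : N * ((1 + A) * ℓ) ≤ (A + 2) * (1 + ℓ) * N := by
      calc N * ((1 + A) * ℓ) ≤ N * ((A + 2) * (1 + ℓ)) := mul_le_mul_of_nonneg_left e3 hN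
        _ = _ := by ring
    linarith
  have h0 : 0 ≤ R * (1 + 1) + N * ((1 + A) * ℓ) := by positivity
  calc 12 * (1 + ℓ) ^ 3 * (R * (1 + 1) + N * ((1 + A) * ℓ)) * G
      ≤ 12 * (1 + ℓ) ^ 3 * ((A + 2) * (1 + ℓ) * (N + c)) * N := by
        apply mul_le_mul _ hGN hG (by positivity)
        exact mul_le_mul_of_nonneg_left h1 (by positivity)
    _ = 12 * (A + 2) * (1 + ℓ) ^ 4 * (N + c) * N := by ring

/-- **Independent translations.**
1. Let `P_j` (`j` in a finite set `ι`) be finite `1`-separated sets of reals, each in an interval of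
length `N`, with `R` points together, and `h, δ > 0`. Outside a measurable set of vectors
`u ∈ [0,h]^ι` of measure at most `δ h^|ι|` one has, for ALL coefficients at once,
`∑_j ∑_{t ∈ P_j} |D(t + u_j)|² ≤ 12 (1 + log N)³ (R (1 + N/h) + N log(N/δ)) ∑ |a_n|²`.
2. (Q1.) Let `S ⊂ [0,T]` be `1`-separated, `0 ≤ T`, `A ≥ 0`, and let `J = ⌊T/N⌋ + 1` be the number
of the intervals `[jN, (j+1)N)` which meet `[0,T]`. Outside a measurable set of vectors
`u ∈ [0,N]^J` of measure at most `N^(-A) N^J`, for ALL coefficients bounded by `1` at once, the set of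
the `t + u_j`, `t ∈ S ∩ [jN, (j+1)N)`, satisfies the inequality of Q1 with `12 (A+2) (1+log N)^4` in
place of `C N^ε`. -/
theorem result :
    (∀ (ι : Type) [Fintype ι] (N : ℕ) (P : ι → Finset ℝ) (h δ : ℝ), 1 ≤ N → 0 < h → 0 < δ →
      (∀ j, ∀ t ∈ P j, ∀ u ∈ P j, t ≠ u → 1 ≤ |t - u|) →
      (∀ j, ∃ x : ℝ, ∀ t ∈ P j, x ≤ t ∧ t ≤ x + N) →
      ∃ E : Set (ι → ℝ), MeasurableSet E ∧
        volume E ≤ ENNReal.ofReal (δ * h ^ Fintype.card ι) ∧
        ∀ u : ι → ℝ, (∀ j, u j ∈ Set.Icc 0 h) → u ∉ E → ∀ a : ℕ → ℂ,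
          ∑ j, ∑ t ∈ P j, ‖D N a (t + u j)‖ ^ 2 ≤
            12 * (1 + Real.log N) ^ 3 *
              ((∑ j, ((P j).card : ℝ)) * (1 + N / h) + N * Real.log (N / δ)) *
              ∑ n ∈ Icc 1 N, ‖a n‖ ^ 2) ∧
    (∀ (A T : ℝ) (N J : ℕ) (S : Finset ℝ), 0 ≤ A → 1 ≤ N → J = ⌊T / N⌋₊ + 1 →
      (∀ t ∈ S, 0 ≤ t ∧ t ≤ T) → (∀ t ∈ S, ∀ u ∈ S, t ≠ u → 1 ≤ |t - u|) →
      ∃ E : Set (Fin J → ℝ), MeasurableSet E ∧
        volume E ≤ ENNReal.ofReal ((N : ℝ) ^ (-A) * (N : ℝ) ^ J) ∧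
        ∀ u : Fin J → ℝ, (∀ j, u j ∈ Set.Icc 0 (N : ℝ)) → u ∉ E →
          ∀ a : ℕ → ℂ, (∀ n, ‖a n‖ ≤ 1) →
            ∑ j : Fin J, ∑ t ∈ S.filter (fun t : ℝ => ⌊t / N⌋₊ = (j : ℕ)), ‖D N a (t + u j)‖ ^ 2 ≤
              12 * (A + 2) * (1 + Real.log N) ^ 4 * ((N : ℝ) + S.card) * N) := by
  refine ⟨fun ι _ N P h δ hN hh hδ hP hx => main N hN P hP hx h δ hh hδ, ?_⟩
  intro A T N J S hA hN hJ hS hsep
  have hN1 : (1:ℝ) ≤ N := by exact_mod_cast hN
  have hN0 : (0:ℝ) < N := by linarith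
  have hl : 0 ≤ Real.log N := Real.log_nonneg hN1
  have hδ : 0 < (N : ℝ) ^ (-A) := Real.rpow_pos_of_pos hN0 _
  obtain ⟨E, hE1, hE2, hE3⟩ := main (ι := Fin J) N hN
    (fun j => S.filter (fun t : ℝ => ⌊t / N⌋₊ = (j : ℕ)))
    (fun j t ht u hu => hsep t (mem_filter.1 ht).1 u (mem_filter.1 hu).1)
    (fun j => ⟨(j : ℕ) * N, by
      intro t ht
      rw [mem_filter] at ht
      obtain ⟨ht, hj⟩ := ht
      have h0 : 0 ≤ t / N := div_nonneg (hS t ht).1 hN0.le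
      have h1 := Nat.floor_le h0
      have h2 := Nat.lt_floor_add_one (t / N)
      rw [hj] at h1 h2
      rw [le_div_iff₀ hN0] at h1
      rw [div_lt_iff₀ hN0] at h2
      constructor
      · exact h1
      · linarith⟩) N ((N : ℝ) ^ (-A)) hN0 hδ
  rw [Fintype.card_fin] at hE2
  refine ⟨E, hE1, hE2, ?_⟩
  intro u hu huE a ha
  refine (hE3 u hu huE a).trans ?_
  have hcard : ∑ j : Fin J, ((S.filter (fun t : ℝ => ⌊t / N⌋₊ = (j : ℕ))).card : ℝ) ≤ S.card := by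
    rw [← Nat.cast_sum]
    have : ∑ j : Fin J, (S.filter (fun t : ℝ => ⌊t / N⌋₊ = (j : ℕ))).card ≤ S.card := by
      rw [← card_biUnion]
      · exact card_le_card (by
          intro t ht
          rw [mem_biUnion] at ht
          obtain ⟨j, _, hj⟩ := ht
          exact (mem_filter.1 hj).1)
      · intro i _ j _ hij
        show Disjoint _ _
        rw [Finset.disjoint_left]
        intro t hti htj
        rw [mem_filter] at hti htj
        exact hij (Fin.ext (by rw [← hti.2, ← htj.2]))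
    exact_mod_cast this
  have hsum : ∑ n ∈ Icc 1 N, ‖a n‖ ^ 2 ≤ N := by
    calc ∑ n ∈ Icc 1 N, ‖a n‖ ^ 2 ≤ ∑ n ∈ Icc 1 N, (1:ℝ) := by
          apply sum_le_sum
          intro n _
          exact pow_le_one₀ (norm_nonneg _) (ha n)
      _ = N := by simp
  have hlog : Real.log ((N : ℝ) / (N : ℝ) ^ (-A)) = (1 + A) * Real.log N := by
    rw [Real.log_div hN0.ne' hδ.ne', Real.log_rpow hN0]
    ring
  rw [hlog, div_self hN0.ne']
  exact num_le hN0.le hl hA (sum_nonneg fun _ _ => Nat.cast_nonneg _) hcard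
    (sum_nonneg fun _ _ => by positivity) hsum

end Pool.Agent.Results.MP_71ac24_nt.IndependentTranslations
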