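import Pool.Agent.N793.LV.Greedy
import Pool.Agent.TH705.DL.Block

set_option autoImplicit false

/-!
# Montgomery's conjecture is a bound `O(N)` for the number of values above `N^(1/2+δ)`

Let `|D| ≥ N^(1/2+δ)` on the `1`-separated set `S ⊂ [0,T]`, `T ≤ N²`. Q1 predicts `|S| ≤ C N^(1-2δ+ε)`.
We show that the much weaker bound `|S| ≤ C N` for all such `D`, `T`, `S` (and one fixed `δ`) implies
the inequality of Q1 for all `S`, with `N^(2δ) (1 + log N)^3` in place of `N^ε`. Hence Q1 is equivalent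
to: for every `δ > 0` there are at most `C_δ N` large values above `N^(1/2+δ)`.

Proof: the signed sum `∑_j ± D(t - u_j)` of suitable translates of `D` amplifies the number of the
large values (`Pool/Agent/N793/LV`): if `R(V)` is the largest number of the values above `V`, then
`R(V) V²` is nonincreasing up to a logarithm, as long as it does not reach `T V²`.
-/

namespace Pool.Agent.Results.MP_71ac24_nt.OneThreshold

open Finset

/-- `D(t) = ∑_{n ≤ N} a_n n^{it}` -/
noncomputable def D (N : ℕ) (a : ℕ → ℂ) (t : ℝ) : ℂ :=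
  ∑ n ∈ Icc 1 N, a n * Complex.exp (Complex.I * (t : ℂ) * (Real.log (n : ℝ) : ℂ))

/-- `N ≥ 1`, `T ≤ N²`, `|a_n| ≤ 1` for all `n`, and `S ⊂ [0,T]` is `1`-separated -/
def Admissible (N : ℕ) (T : ℝ) (a : ℕ → ℂ) (S : Finset ℝ) : Prop :=
  1 ≤ N ∧ T ≤ (N : ℝ) ^ 2 ∧ (∀ n, ‖a n‖ ≤ 1) ∧ (∀ t ∈ S, 0 ≤ t ∧ t ≤ T) ∧
    ∀ t ∈ S, ∀ u ∈ S, t ≠ u → 1 ≤ |t - u|

/-- Q1 -/
def Montgomery : Prop :=
  ∀ ε : ℝ, 0 < ε → ∃ C : ℝ, 0 < C ∧ ∀ (N : ℕ) (T : ℝ) (a : ℕ → ℂ) (S : Finset ℝ),
    Admissible N T a S → ∑ t ∈ S, ‖D N a t‖ ^ 2 ≤ C * (N : ℝ) ^ ε * ((N : ℝ) + S.card) * N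

/-- at most `C N` values above `N^(1/2+δ)`, for all `T ≤ N²` -/
def FewLarge (δ C : ℝ) : Prop :=
  ∀ (N : ℕ) (T : ℝ) (a : ℕ → ℂ) (S : Finset ℝ), Admissible N T a S →
    (∀ t ∈ S, (N : ℝ) ^ (1 / 2 + δ) ≤ ‖D N a t‖) → (S.card : ℝ) ≤ C * N

/-- dyadic summation -/
theorem dyadic (S : Finset ℝ) (F : ℝ → ℝ) {V B : ℝ} (hF : ∀ t ∈ S, 0 ≤ F t) (hV : 0 < V)
    (hB : ∀ W ⊆ S, ∀ V' : ℝ, V ≤ V' → (∀ t ∈ W, V' ≤ F t) → V' ^ 2 * W.card ≤ B) (k : ℕ) :
    ∑ t ∈ S.filter (fun t => F t < 2 ^ k * V), F t ^ 2 ≤ S.card * V ^ 2 + 4 * k * B := by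
  classical
  have hB0 : 0 ≤ B := by
    have := hB ∅ (empty_subset _) V le_rfl (by simp)
    simpa using this
  induction k with
  | zero =>
    calc ∑ t ∈ S.filter (fun t => F t < 2 ^ 0 * V), F t ^ 2
        ≤ ∑ t ∈ S.filter (fun t => F t < 2 ^ 0 * V), V ^ 2 := by
          apply sum_le_sum
          intro t ht
          rw [mem_filter] at ht
          exact pow_le_pow_left₀ (hF t ht.1) (by linarith [ht.2]) 2
      _ ≤ ∑ t ∈ S, V ^ 2 := sum_le_sum_of_subset_of_nonneg (filter_subset _ _)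
          (fun _ _ _ => by positivity)
      _ = _ := by rw [sum_const, nsmul_eq_mul]; push_cast; ring
  | succ k ih =>
    have hsplit : S.filter (fun t => F t < 2 ^ (k + 1) * V) ⊆
        S.filter (fun t => F t < 2 ^ k * V) ∪
          S.filter (fun t => 2 ^ k * V ≤ F t ∧ F t < 2 ^ (k + 1) * V) := by
      intro t ht
      rw [mem_filter] at ht
      rw [mem_union, mem_filter, mem_filter]
      rcases lt_or_ge (F t) (2 ^ k * V) with h | h
      · exact Or.inl ⟨ht.1, h⟩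
      · exact Or.inr ⟨ht.1, h, ht.2⟩
    have h1 : ∑ t ∈ S.filter (fun t => 2 ^ k * V ≤ F t ∧ F t < 2 ^ (k + 1) * V), F t ^ 2 ≤ 4 * B := by
      set W := S.filter (fun t => 2 ^ k * V ≤ F t ∧ F t < 2 ^ (k + 1) * V) with hW
      have h2 : ∑ t ∈ W, F t ^ 2 ≤ ∑ t ∈ W, (2 ^ (k + 1) * V) ^ 2 := by
        apply sum_le_sum
        intro t ht
        rw [hW, mem_filter] at ht
        exact pow_le_pow_left₀ (hF t ht.1) ht.2.2.le 2
      have h3 := hB W (filter_subset _ _) (2 ^ k * V) (by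
        have : (1:ℝ) ≤ 2 ^ k := one_le_pow₀ (by norm_num)
        nlinarith) (fun t ht => (mem_filter.1 ht).2.1)
      calc ∑ t ∈ W, F t ^ 2 ≤ W.card * (2 ^ (k + 1) * V) ^ 2 := by
            rw [sum_const, nsmul_eq_mul] at h2; exact h2
        _ = 4 * ((2 ^ k * V) ^ 2 * W.card) := by rw [pow_succ]; ring
        _ ≤ 4 * B := by linarith
    calc ∑ t ∈ S.filter (fun t => F t < 2 ^ (k + 1) * V), F t ^ 2
        ≤ ∑ t ∈ S.filter (fun t => F t < 2 ^ k * V) ∪
          S.filter (fun t => 2 ^ k * V ≤ F t ∧ F t < 2 ^ (k + 1) * V), F t ^ 2 :=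
          sum_le_sum_of_subset_of_nonneg hsplit (fun _ _ _ => sq_nonneg _)
      _ ≤ ∑ t ∈ S.filter (fun t => F t < 2 ^ k * V), F t ^ 2 +
          ∑ t ∈ S.filter (fun t => 2 ^ k * V ≤ F t ∧ F t < 2 ^ (k + 1) * V), F t ^ 2 := by
          have := sum_union_inter (s₁ := S.filter (fun t => F t < 2 ^ k * V))
            (s₂ := S.filter (fun t => 2 ^ k * V ≤ F t ∧ F t < 2 ^ (k + 1) * V))
            (f := fun t => F t ^ 2)
          have h0 : 0 ≤ ∑ t ∈ S.filter (fun t => F t < 2 ^ k * V) ∩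
            S.filter (fun t => 2 ^ k * V ≤ F t ∧ F t < 2 ^ (k + 1) * V), F t ^ 2 :=
            sum_nonneg fun _ _ => sq_nonneg _
          linarith
      _ ≤ (S.card * V ^ 2 + 4 * k * B) + 4 * B := add_le_add ih h1
      _ = _ := by push_cast; ring

/-- the values are at most `N` -/
theorem D_le {N : ℕ} {a : ℕ → ℂ} (ha : ∀ n, ‖a n‖ ≤ 1) (t : ℝ) : ‖D N a t‖ ≤ N := by
  unfold D
  refine (norm_sum_le _ _).trans ?_
  calc ∑ n ∈ Icc 1 N, ‖a n * Complex.exp (Complex.I * (t : ℂ) * (Real.log (n : ℝ) : ℂ))‖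
      ≤ ∑ n ∈ Icc 1 N, (1:ℝ) := by
        apply sum_le_sum
        intro n _
        rw [norm_mul, Pool.Agent.N793.LV.norm_e, mul_one]
        exact ha n
    _ = N := by simp

/-- **The reduction to one threshold.** -/
theorem reduce {δ C : ℝ} (hδ : 0 ≤ δ) (hC : 1 ≤ C) (h : FewLarge δ C) (N : ℕ) (T : ℝ) (a : ℕ → ℂ)
    (S : Finset ℝ) (hA : Admissible N T a S) :
    ∑ t ∈ S, ‖D N a t‖ ^ 2 ≤
      10000 * C * (1 + Real.log N) ^ 3 * (N : ℝ) ^ (2 * δ) * ((N : ℝ) + S.card) * N := by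
  classical
  obtain ⟨hN, hTN, ha, hS, hsep⟩ := hA
  have hN1 : (1:ℝ) ≤ N := by exact_mod_cast hN
  have hN0 : (0:ℝ) < N := by linarith
  have hl : 0 ≤ Real.log N := Real.log_nonneg hN1
  set ℓ := Real.log N with hℓ
  have hP : (1:ℝ) ≤ (N : ℝ) ^ (2 * δ) := Real.one_le_rpow hN1 (by linarith)
  set P := (N : ℝ) ^ (2 * δ) with hPd
  have hc0 : (0:ℝ) ≤ S.card := Nat.cast_nonneg _
  have hC0 : 0 < C := by linarith
  rcases le_or_gt T (128 * C * N) with hT | hT
  · -- short intervals: the mean value theorem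
    rcases S.eq_empty_or_nonempty with hSe | ⟨t0, ht0⟩
    · rw [hSe]; simp only [sum_empty]; positivity
    have hT0 : 0 ≤ T := (hS t0 ht0).1.trans (hS t0 ht0).2
    have h1 := Pool.Agent.TH705.DL.block N hN a S hsep 0 T hT0 hS
    have e : ∀ t, Pool.Agent.TH705.DL.DP N a t = D N a t := fun t => rfl
    simp only [e] at h1
    have hsum : ∑ n ∈ Icc 1 N, ‖a n‖ ^ 2 ≤ N := by
      calc ∑ n ∈ Icc 1 N, ‖a n‖ ^ 2 ≤ ∑ n ∈ Icc 1 N, (1:ℝ) := by
            apply sum_le_sum
            intro n _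
            exact pow_le_one₀ (norm_nonneg _) (ha n)
        _ = N := by simp
    rw [← hℓ] at h1
    have h2 : 2 + ℓ ^ 2 ≤ 2 * (1 + ℓ) ^ 2 := by nlinarith
    have h3 : (T + 1 - 0) + 4 * N * (1 + ℓ) ≤ 133 * C * N * (1 + ℓ) := by
      have e1 : T + 1 - 0 ≤ 129 * C * N := by nlinarith
      have e2 : 129 * C * N ≤ 129 * C * N * (1 + ℓ) := by
        have : 0 ≤ 129 * C * N * ℓ := by positivity
        linarith
      have e3 : 4 * N * (1 + ℓ) ≤ 4 * C * N * (1 + ℓ) := by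
        have : 0 ≤ 4 * (C - 1) * N * (1 + ℓ) := by
          have : 0 ≤ C - 1 := by linarith
          positivity
        linarith
      linarith
    calc ∑ t ∈ S, ‖D N a t‖ ^ 2
        ≤ (2 + ℓ ^ 2) * ((T + 1 - 0) + 4 * N * (1 + ℓ)) * ∑ n ∈ Icc 1 N, ‖a n‖ ^ 2 := h1
      _ ≤ (2 * (1 + ℓ) ^ 2) * (133 * C * N * (1 + ℓ)) * N := by
          apply mul_le_mul _ hsum (sum_nonneg fun _ _ => by positivity) (by positivity)
          apply mul_le_mul h2 h3 (by
            have : 0 ≤ 4 * (N:ℝ) * (1 + ℓ) := by positivity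
            linarith) (by positivity)
      _ = 266 * C * (1 + ℓ) ^ 3 * N * N := by ring
      _ ≤ 10000 * C * (1 + ℓ) ^ 3 * P * ((N : ℝ) + S.card) * N := by
          have e1 : 266 * C * (1 + ℓ) ^ 3 ≤ 10000 * C * (1 + ℓ) ^ 3 * P := by
            have : 0 ≤ C * (1 + ℓ) ^ 3 := by positivity
            nlinarith
          have e2 : 266 * C * (1 + ℓ) ^ 3 * N ≤ 10000 * C * (1 + ℓ) ^ 3 * P * ((N : ℝ) + S.card) := by
            apply mul_le_mul e1 (by linarith) hN0.le (by positivity)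
          exact mul_le_mul_of_nonneg_right e2 hN0.le
  · -- long intervals
    have hT0 : 0 ≤ T := le_trans (by positivity) hT.le
    set V : ℝ := (N : ℝ) ^ (1 / 2 + δ) with hV
    have hV0 : 0 < V := Real.rpow_pos_of_pos hN0 _
    have hV1 : 1 ≤ V := Real.one_le_rpow hN1 (by linarith)
    have hV2 : V ^ 2 = N * P := by
      rw [hV, hPd, ← Real.rpow_natCast, ← Real.rpow_mul hN0.le]
      rw [show ((1 / 2 + δ) * ((2:ℕ):ℝ)) = 1 + 2 * δ by push_cast; ring, Real.rpow_add hN0,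
        Real.rpow_one]
    set L : ℝ := Real.log (16 * N) with hL
    have hL0 : 0 < L := Real.log_pos (by linarith)
    have hLle : L ≤ 3 * (1 + ℓ) := by
      rw [hL, Real.log_mul (by norm_num) hN0.ne', show (16:ℝ) = 2 ^ 4 by norm_num, Real.log_pow]
      have := Real.log_two_lt_d9
      push_cast
      linarith
    set B : ℝ := 128 * C * N * L * V ^ 2 with hB
    have hB0 : 0 ≤ B := by positivity
    have hcard : ((Icc 1 N).card : ℝ) = N := by simp
    have key : ∀ W ⊆ S, ∀ V' : ℝ, V ≤ V' → (∀ t ∈ W, V' ≤ ‖D N a t‖) → V' ^ 2 * W.card ≤ B := by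
      intro W hWS V' hVV' hWV
      obtain ⟨b', W', h1, h2, h3, h4, h5, -⟩ := Pool.Agent.N793.LV.mono (Icc 1 N)
        (fun n => Real.log (n : ℝ)) a hT0 ⟨1, mem_Icc.2 ⟨le_rfl, hN⟩⟩ (fun n _ => ha n) hV0 hVV' W
        (fun t ht u hu => hsep t (hWS ht) u (hWS hu)) (fun t ht => hS t (hWS ht)) hWV
      -- truncate the coefficients outside `[1, N]`
      set b : ℕ → ℂ := fun n => if n ∈ Icc 1 N then b' n else 0 with hb
      have hbb : ∀ t, D N b t = Pool.Agent.N793.LV.F (Icc 1 N) (fun n => Real.log (n : ℝ)) b' t := by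
        intro t
        unfold D Pool.Agent.N793.LV.F
        apply sum_congr rfl
        intro n hn
        rw [hb]
        simp only [hn, if_true]
      have h6 := h N T b W' ⟨hN, hTN, (fun n => by
        rw [hb]
        by_cases hn : n ∈ Icc 1 N
        · simp only [hn, if_true]; exact h1 n hn
        · simp only [hn, if_false]; simp), h3, h2⟩ (fun t ht => by rw [hbb]; exact h4 t ht)
      rw [hcard, ← hL] at h5
      have h7 : min ((V' / V) ^ 2 * W.card / L) T ≤ 128 * (C * N) := by linarith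
      rcases min_le_iff.1 h7 with h8 | h8
      · rw [div_le_iff₀ hL0, div_pow, div_mul_eq_mul_div, div_le_iff₀ (by positivity)] at h8
        rw [hB]
        linarith
      · exfalso
        linarith
    obtain ⟨k, hk1, hk2⟩ : ∃ k : ℕ, (N : ℝ) < 2 ^ k ∧ (k : ℝ) ≤ 3 * (1 + ℓ) := by
      refine ⟨Nat.log 2 N + 1, by exact_mod_cast Nat.lt_pow_succ_log_self (by norm_num) N, ?_⟩
      have h1 : (2:ℝ) ^ (Nat.log 2 N) ≤ N := by exact_mod_cast Nat.pow_log_le_self 2 (by omega)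
      have h2 := Real.log_le_log (by positivity) h1
      rw [Real.log_pow] at h2
      have h3 := Real.log_two_gt_d9
      push_cast
      have h4 : (0:ℝ) ≤ (Nat.log 2 N : ℝ) := Nat.cast_nonneg _
      nlinarith
    have hd := dyadic S (fun t => ‖D N a t‖) (fun _ _ => norm_nonneg _) hV0 key k
    have hf : S.filter (fun t => ‖D N a t‖ < 2 ^ k * V) = S := by
      apply filter_true_of_mem
      intro t _
      calc ‖D N a t‖ ≤ N := D_le ha t
        _ < 2 ^ k := hk1
        _ ≤ 2 ^ k * V := by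
            have : (0:ℝ) < 2 ^ k := by positivity
            nlinarith
    rw [hf] at hd
    refine hd.trans ?_
    rw [hB, hV2]
    have e1 : 4 * (k:ℝ) * (128 * C * N * L * (N * P)) ≤
        4 * (3 * (1 + ℓ)) * (128 * C * N * (3 * (1 + ℓ)) * (N * P)) := by
      gcongr
    have e2 : (1:ℝ) ≤ (1 + ℓ) ^ 3 := one_le_pow₀ (by linarith)
    have e3 : (1 + ℓ) ^ 2 ≤ (1 + ℓ) ^ 3 := pow_le_pow_right₀ (by linarith) (by norm_num)
    have e4 : 4 * (3 * (1 + ℓ)) * (128 * C * N * (3 * (1 + ℓ)) * (N * P)) ≤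
        10000 * C * (1 + ℓ) ^ 3 * P * (N * N) := by
      have : 4608 * C * (1 + ℓ) ^ 2 * P * (N * N) ≤ 10000 * C * (1 + ℓ) ^ 3 * P * (N * N) := by
        gcongr
        norm_num
      calc _ = 4608 * C * (1 + ℓ) ^ 2 * P * (N * N) := by ring
        _ ≤ _ := this
    have e5 : S.card * (N * P) ≤ 10000 * C * (1 + ℓ) ^ 3 * P * (S.card * N) := by
      have h1 : (1:ℝ) ≤ 10000 * C * (1 + ℓ) ^ 3 := by nlinarith
      have h2 : 0 ≤ P * (S.card * N) := by positivity
      calc S.card * (N * P) = 1 * (P * (S.card * N)) := by ring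
        _ ≤ (10000 * C * (1 + ℓ) ^ 3) * (P * (S.card * N)) := mul_le_mul_of_nonneg_right h1 h2
        _ = _ := by ring
    calc S.card * (N * P) + 4 * (k:ℝ) * (128 * C * N * L * (N * P))
        ≤ 10000 * C * (1 + ℓ) ^ 3 * P * (S.card * N) + 10000 * C * (1 + ℓ) ^ 3 * P * (N * N) := by
          linarith
      _ = _ := by ring

theorem log_le_pow {ε : ℝ} (hε : 0 < ε) : ∃ K : ℝ, 0 < K ∧ ∀ x : ℝ, 1 ≤ x →
    (1 + Real.log x) ^ 3 ≤ K * x ^ ε := by
  refine ⟨(1 + 1 / (ε / 3)) ^ 3, by positivity, ?_⟩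
  intro x hx
  have h1 := Real.log_le_rpow_div (by linarith : (0 : ℝ) ≤ x) (by positivity : 0 < ε / 3)
  have h2 : 1 ≤ x ^ (ε / 3) := Real.one_le_rpow hx (by positivity)
  have h3 : 1 + Real.log x ≤ (1 + 1 / (ε / 3)) * x ^ (ε / 3) := by
    calc 1 + Real.log x ≤ x ^ (ε / 3) + x ^ (ε / 3) / (ε / 3) := by linarith
      _ = _ := by ring
  have h4 : 0 ≤ Real.log x := Real.log_nonneg hx
  calc (1 + Real.log x) ^ 3 ≤ ((1 + 1 / (ε / 3)) * x ^ (ε / 3)) ^ 3 :=
        pow_le_pow_left₀ (by linarith) h3 3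
    _ = (1 + 1 / (ε / 3)) ^ 3 * x ^ ε := by
        rw [mul_pow, ← Real.rpow_natCast (x ^ (ε / 3)), ← Real.rpow_mul (by linarith)]
        congr 2
        push_cast
        ring

/-- **One threshold.** (1) If, for one `δ ≥ 0` and `C ≥ 1`, there are never more than `C N` points of a
`1`-separated set in `[0,T]`, `T ≤ N²`, at which `|D| ≥ N^(1/2+δ)`, then
`∑_{t ∈ S} |D(t)|² ≤ 10000 C (1 + log N)³ N^(2δ) (N + |S|) N` for all admissible `N, T, a, S`.
(2) Q1 holds if and only if for every `δ > 0` there is `C` with `FewLarge δ C`. -/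
theorem result :
    (∀ δ C : ℝ, 0 ≤ δ → 1 ≤ C → FewLarge δ C → ∀ (N : ℕ) (T : ℝ) (a : ℕ → ℂ) (S : Finset ℝ),
      Admissible N T a S → ∑ t ∈ S, ‖D N a t‖ ^ 2 ≤
        10000 * C * (1 + Real.log N) ^ 3 * (N : ℝ) ^ (2 * δ) * ((N : ℝ) + S.card) * N) ∧
    (Montgomery ↔ ∀ δ : ℝ, 0 < δ → ∃ C : ℝ, FewLarge δ C) := by
  refine ⟨fun δ C hδ hC h N T a S hA => reduce hδ hC h N T a S hA, fun h δ hδ => ?_, fun h ε hε => ?_⟩
  · obtain ⟨C, hC, h⟩ := h δ hδ
    refine ⟨2 * C + 2 * (2 * C) ^ (1 / δ), ?_⟩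
    intro N T a S hA hS
    have h1 := h N T a S hA
    obtain ⟨hN, hTN, ha, hST, hsep⟩ := hA
    have hN1 : (1:ℝ) ≤ N := by exact_mod_cast hN
    have hN0 : (0:ℝ) < N := by linarith
    set x := (N : ℝ) ^ δ with hx
    have hx0 : 0 < x := Real.rpow_pos_of_pos hN0 _
    have hx1 : 1 ≤ x := Real.one_le_rpow hN1 hδ.le
    have hV2 : ((N : ℝ) ^ (1 / 2 + δ)) ^ 2 = N * x ^ 2 := by
      rw [hx, ← Real.rpow_natCast, ← Real.rpow_natCast, ← Real.rpow_mul hN0.le,
        ← Real.rpow_mul hN0.le]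
      rw [show ((1 / 2 + δ) * ((2:ℕ):ℝ)) = 1 + δ * ((2:ℕ):ℝ) by push_cast; ring,
        Real.rpow_add hN0, Real.rpow_one]
    have h2 : (S.card : ℝ) * (N * x ^ 2) ≤ ∑ t ∈ S, ‖D N a t‖ ^ 2 := by
      rw [← hV2, ← nsmul_eq_mul, ← sum_const]
      apply sum_le_sum
      intro t ht
      exact pow_le_pow_left₀ (by positivity) (hS t ht) 2
    have h3 : (S.card : ℝ) * x ^ 2 ≤ C * x * (N + S.card) := by
      have h4 := h2.trans h1
      have h5 : N * ((S.card : ℝ) * x ^ 2) ≤ N * (C * x * (N + S.card)) := by linarith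
      exact le_of_mul_le_mul_left h5 hN0
    have h4 : (S.card : ℝ) * x ≤ C * (N + S.card) := by
      have h5 : x * ((S.card : ℝ) * x) ≤ x * (C * (N + S.card)) := by linarith
      exact le_of_mul_le_mul_left h5 hx0
    have hc0 : (0:ℝ) ≤ S.card := Nat.cast_nonneg _
    have hp : 0 ≤ (2 * C) ^ (1 / δ) := by positivity
    rcases le_or_gt (2 * C) x with h5 | h5
    · have h6 : (S.card : ℝ) * C ≤ C * N := by nlinarith
      have h7 : (S.card : ℝ) ≤ N := by nlinarith
      have h8 : (S.card : ℝ) * (2 * C) ≤ C * (N + S.card) := by nlinarith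
      have h9 : (S.card : ℝ) * x ≤ C * (N + N) := by nlinarith
      have h10 : (S.card : ℝ) * 1 ≤ C * (N + N) := by nlinarith
      nlinarith [mul_nonneg hp hN0.le]
    · have h6 : (N : ℝ) ≤ (2 * C) ^ (1 / δ) := by
        have : (N : ℝ) = x ^ (1 / δ) := by
          rw [hx, ← Real.rpow_mul hN0.le, mul_one_div_cancel hδ.ne', Real.rpow_one]
        rw [this]
        exact Real.rpow_le_rpow hx0.le h5.le (by positivity)
      have h7 : (S.card : ℝ) ≤ T + 1 ∨ S = ∅ := by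
        rcases S.eq_empty_or_nonempty with he | ⟨t0, ht0⟩
        · exact Or.inr he
        · left
          classical
          have hT0 : 0 ≤ T := (hST t0 ht0).1.trans (hST t0 ht0).2
          have hinj : Set.InjOn (fun t : ℝ => ⌊t⌋₊) (S : Set ℝ) := by
            intro t ht u hu htu
            by_contra hne
            have h8 := hsep t ht u hu hne
            have a1 := Nat.floor_le (hST t ht).1
            have a2 := Nat.lt_floor_add_one t
            have a3 := Nat.floor_le (hST u hu).1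
            have a4 := Nat.lt_floor_add_one u
            simp only at htu
            rw [htu] at a1 a2
            rcases le_abs.1 h8 with h9 | h9 <;> linarith
          have h8 : S.card ≤ (range (⌊T⌋₊ + 1)).card := by
            rw [← card_image_of_injOn hinj]
            apply card_le_card
            intro k hk
            rw [mem_image] at hk
            obtain ⟨t, ht, rfl⟩ := hk
            rw [mem_range]
            have := Nat.floor_le_floor (hST t ht).2
            omega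
          rw [card_range] at h8
          have h9 := Nat.floor_le hT0
          have h10 : (S.card : ℝ) ≤ ⌊T⌋₊ + 1 := by exact_mod_cast h8
          linarith
      rcases h7 with h7 | h7
      · have h8 : (S.card : ℝ) ≤ 2 * (N : ℝ) ^ 2 := by nlinarith
        have h9 : 2 * (N : ℝ) ^ 2 ≤ 2 * (2 * C) ^ (1 / δ) * N := by nlinarith
        have h10 : 0 ≤ 2 * C * N := by positivity
        linarith
      · rw [h7]
        simp only [card_empty, Nat.cast_zero]
        positivity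
  · obtain ⟨C, hC⟩ := h (ε / 4) (by linarith)
    obtain ⟨K, hK, hlog⟩ := log_le_pow (ε := ε / 2) (by linarith)
    refine ⟨10000 * max C 1 * K, by positivity, ?_⟩
    intro N T a S hA
    have hC' : FewLarge (ε / 4) (max C 1) := by
      intro N T a S hA hS
      exact (hC N T a S hA hS).trans (mul_le_mul_of_nonneg_right (le_max_left _ _)
        (Nat.cast_nonneg _))
    have h1 := reduce (by linarith) (le_max_right C 1) hC' N T a S hA
    have hN1 : (1:ℝ) ≤ N := by exact_mod_cast hA.1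
    have hN0 : (0:ℝ) < N := by linarith
    refine h1.trans ?_
    have h2 := hlog N hN1
    have h3 : (N : ℝ) ^ ε = (N : ℝ) ^ (ε / 2) * (N : ℝ) ^ (2 * (ε / 4)) := by
      rw [← Real.rpow_add hN0]
      congr 1
      ring
    rw [h3]
    have h4 : 0 ≤ (N : ℝ) ^ (2 * (ε / 4)) := by positivity
    have h5 : (0:ℝ) ≤ max C 1 := by positivity
    calc 10000 * max C 1 * (1 + Real.log N) ^ 3 * (N : ℝ) ^ (2 * (ε / 4)) * (N + S.card) * N
        ≤ 10000 * max C 1 * (K * (N : ℝ) ^ (ε / 2)) * (N : ℝ) ^ (2 * (ε / 4)) * (N + S.card) * N := by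
          gcongr
      _ = _ := by ring

end Pool.Agent.Results.MP_71ac24_nt.OneThreshold
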